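import Mathlib
import Pool.Agent.H.MP_2d9e0f_co.Go

set_option autoImplicit false

namespace Pool.Agent.H.MP_2d9e0f_co

open Function

/-- a pair of orthogonal Latin squares of order six -/
structure OLS (A B : Fin 6 → Fin 6 → Fin 6) : Prop where
  a1 : ∀ r, Injective (A r)
  a2 : ∀ c, Injective (fun r => A r c)
  b1 : ∀ r, Injective (B r)
  b2 : ∀ c, Injective (fun r => B r c)
  ab : Injective (fun p : Fin 6 × Fin 6 => (A p.1 p.2, B p.1 p.2))

theorem OLS.comp {A B : Fin 6 → Fin 6 → Fin 6} (h : OLS A B) {ρ γ α β : Fin 6 → Fin 6}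
    (hρ : Injective ρ) (hγ : Injective γ) (hα : Injective α) (hβ : Injective β) :
    OLS (fun r c => α (A (ρ r) (γ c))) (fun r c => β (B (ρ r) (γ c))) where
  a1 := fun r _ _ e => hγ (h.a1 (ρ r) (hα e))
  a2 := fun c _ _ e => hρ (h.a2 (γ c) (hα e))
  b1 := fun r _ _ e => hγ (h.b1 (ρ r) (hβ e))
  b2 := fun c _ _ e => hρ (h.b2 (γ c) (hβ e))
  ab := fun p q e => by
    have e1 := hα (congrArg Prod.fst e)
    have e2 := hβ (congrArg Prod.snd e)
    have := @h.ab (ρ p.1, γ p.2) (ρ q.1, γ q.2) (Prod.ext e1 e2)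
    exact Prod.ext (hρ (congrArg Prod.fst this)) (hγ (congrArg Prod.snd this))

theorem bit_mask (r c a b i : ℕ) : (mask r c a b).testBit i = true ↔
    r * 6 + a = i ∨ 36 + c * 6 + a = i ∨ 72 + r * 6 + b = i ∨ 108 + c * 6 + b = i ∨
      144 + a * 6 + b = i ∨ 180 + r * 6 + c = i := by
  simp only [mask, Nat.testBit_or, Nat.testBit_two_pow, Bool.or_eq_true, decide_eq_true_eq, or_assoc]

def Sol (A B : Fin 6 → Fin 6 → Fin 6) (m : ℕ) : Prop :=
  ∃ r c : Fin 6, m = mask r c (A r c) (B r c)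

theorem OLS.disj {A B : Fin 6 → Fin 6 → Fin 6} (h : OLS A B) (x y : ℕ) (hx : Sol A B x)
    (hy : Sol A B y) : x = y ∨ x &&& y = 0 := by
  obtain ⟨r, c, rfl⟩ := hx
  obtain ⟨r', c', rfl⟩ := hy
  by_cases e : r = r' ∧ c = c'
  · left; rw [e.1, e.2]
  right
  apply Nat.eq_of_testBit_eq
  intro i
  rw [Nat.testBit_and, Nat.zero_testBit, Bool.and_eq_false_iff]
  by_contra hc
  push Not at hc
  have h1 := (bit_mask _ _ _ _ _).mp (Bool.of_not_eq_false hc.1)
  have h2 := (bit_mask _ _ _ _ _).mp (Bool.of_not_eq_false hc.2)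
  have k1 : ¬ (r.1 = r'.1 ∧ (A r c).1 = (A r' c').1) := fun k => by
    obtain rfl : r = r' := Fin.ext k.1
    exact e ⟨rfl, h.a1 r (Fin.ext k.2)⟩
  have k2 : ¬ (c.1 = c'.1 ∧ (A r c).1 = (A r' c').1) := fun k => by
    obtain rfl : c = c' := Fin.ext k.1
    exact e ⟨h.a2 c (Fin.ext k.2), rfl⟩
  have k3 : ¬ (r.1 = r'.1 ∧ (B r c).1 = (B r' c').1) := fun k => by
    obtain rfl : r = r' := Fin.ext k.1
    exact e ⟨rfl, h.b1 r (Fin.ext k.2)⟩
  have k4 : ¬ (c.1 = c'.1 ∧ (B r c).1 = (B r' c').1) := fun k => by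
    obtain rfl : c = c' := Fin.ext k.1
    exact e ⟨h.b2 c (Fin.ext k.2), rfl⟩
  have k5 : ¬ ((A r c).1 = (A r' c').1 ∧ (B r c).1 = (B r' c').1) := fun k => by
    have := @h.ab (r, c) (r', c') (Prod.ext (Fin.ext k.1) (Fin.ext k.2))
    exact e ⟨congrArg Prod.fst this, congrArg Prod.snd this⟩
  have k6 : ¬ (r.1 = r'.1 ∧ c.1 = c'.1) := fun k => e ⟨Fin.ext k.1, Fin.ext k.2⟩
  have := r.2; have := c.2; have := r'.2; have := c'.2
  have := (A r c).2; have := (B r c).2; have := (A r' c').2; have := (B r' c').2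
  generalize (A r c).1 = a at *
  generalize (B r c).1 = b at *
  generalize (A r' c').1 = a' at *
  generalize (B r' c').1 = b' at *
  rcases h1 with h1 | h1 | h1 | h1 | h1 | h1 <;> rcases h2 with h2 | h2 | h2 | h2 | h2 | h2 <;> omega

theorem OLS.cover {A B : Fin 6 → Fin 6 → Fin 6} (h : OLS A B) (i : ℕ) (hi : i < 216) :
    ∃ r c : Fin 6, (mask r c (A r c) (B r c)).testBit i = true := by
  obtain ⟨x, hx⟩ : ∃ x : Fin 6, x.1 = i % 36 / 6 := ⟨⟨i % 36 / 6, by omega⟩, rfl⟩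
  obtain ⟨y, hy⟩ : ∃ y : Fin 6, y.1 = i % 6 := ⟨⟨i % 6, by omega⟩, rfl⟩
  simp only [bit_mask]
  have : i / 36 = 0 ∨ i / 36 = 1 ∨ i / 36 = 2 ∨ i / 36 = 3 ∨ i / 36 = 4 ∨ i / 36 = 5 := by omega
  rcases this with k | k | k | k | k | k
  · obtain ⟨c, hc⟩ := Finite.injective_iff_surjective.mp (h.a1 x) y
    exact ⟨x, c, by rw [hc]; omega⟩
  · obtain ⟨r, hr⟩ := Finite.injective_iff_surjective.mp (h.a2 x) y
    exact ⟨r, x, by rw [show A r x = y from hr]; omega⟩
  · obtain ⟨c, hc⟩ := Finite.injective_iff_surjective.mp (h.b1 x) y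
    exact ⟨x, c, by rw [hc]; omega⟩
  · obtain ⟨r, hr⟩ := Finite.injective_iff_surjective.mp (h.b2 x) y
    exact ⟨r, x, by rw [show B r x = y from hr]; omega⟩
  · obtain ⟨p, hp⟩ := Finite.injective_iff_surjective.mp h.ab (x, y)
    exact ⟨p.1, p.2, by
      rw [show A p.1 p.2 = x from congrArg Prod.fst hp, show B p.1 p.2 = y from congrArg Prod.snd hp]
      omega⟩
  · exact ⟨x, y, by omega⟩

theorem inv_fold (S : ℕ → Prop) (hS : ∀ x y, S x → S y → x = y ∨ x &&& y = 0) (L : List ℕ)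
    (hL : ∀ m ∈ L, S m) : ∀ m, S m → L.foldr (· ||| ·) 0 &&& m = 0 ∨ L.foldr (· ||| ·) 0 &&& m = m := by
  induction L with
  | nil => intro m _; left; simp
  | cons a L ih =>
    intro m hm
    rw [List.foldr_cons, Nat.and_or_distrib_right]
    have ih' := ih (fun x hx => hL x (List.mem_cons_of_mem _ hx)) m hm
    rcases hS a m (hL a List.mem_cons_self) hm with rfl | h
    · right
      rcases ih' with h | h <;> rw [h] <;> simp
    · rw [h]; simpa using ih'

noncomputable def chk (u : ℕ) (cs : List (ℕ × List ℕ)) : Bool :=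
  cs.all (fun e => e.1 == 2 ^ e.1.log2 && decide (e.1.log2 < 216) && u &&& e.1 == 0) &&
  (List.finRange 6).all fun r => (List.finRange 6).all fun c => (List.finRange 6).all fun a =>
    (List.finRange 6).all fun b => force (mask r c a b) fun m =>
      !(u &&& m == 0) || cs.all fun e => !(m &&& e.1 == e.1) || e.2.contains m

theorem OLS.norm {A B : Fin 6 → Fin 6 → Fin 6} (h : OLS A B) (u : ℕ) (cs : List (ℕ × List ℕ))
    (h1 : go cs u = true) (h2 : chk u cs = true) (L : List ℕ) (hL : ∀ m ∈ L, Sol A B m)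
    (hu : L.foldr (· ||| ·) 0 = u) : False := by
  have inv := inv_fold _ h.disj L hL
  rw [hu] at inv
  simp only [chk, force_eq, Bool.and_eq_true, List.all_eq_true, beq_iff_eq, decide_eq_true_eq,
    Bool.or_eq_true, Bool.not_eq_true', beq_eq_false_iff_ne, List.mem_finRange, true_imp_iff,
    List.contains_iff_mem] at h2
  refine go_spec _ h.disj cs u (fun e he => ?_) inv h1
  obtain ⟨⟨e1, e2⟩, e3⟩ := h2.1 e he
  obtain ⟨r, c, hb⟩ := h.cover _ e2
  have hn : e.1 ≠ 0 := by rw [e1]; positivity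
  have hm : mask r c (A r c) (B r c) &&& e.1 = e.1 := by
    rw [e1, Nat.and_two_pow, hb]; simp
  refine ⟨_, ?_, ⟨r, c, rfl⟩, hm, hn⟩
  rcases h2.2 r c (A r c) (B r c) with k | k
  · exfalso
    rcases inv _ ⟨r, c, rfl⟩ with k2 | k2
    · exact k k2
    · apply hn
      rw [← hm, ← k2, Nat.and_assoc, Nat.and_comm _ e.1, ← Nat.and_assoc, e3]
      simp
  · rcases k e he with k | k
    · exact absurd hm k
    · exact k

theorem chkA : chk uA cA = true := by decide +kernel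

theorem chkB : chk uB cB = true := by decide +kernel

def piA : Fin 6 → Fin 6 := ![0, 5, 1, 2, 3, 4]

def piB : Fin 6 → Fin 6 := ![0, 2, 1, 4, 5, 3]

def base (p : Fin 6 → Fin 6) : List ℕ :=
  (List.finRange 6).map (fun c : Fin 6 => mask 0 c c c) ++
    (List.finRange 6).map (fun r : Fin 6 => mask r 0 r (p r))

theorem base_sol {A B : Fin 6 → Fin 6 → Fin 6} {p : Fin 6 → Fin 6} (h1 : ∀ c, A 0 c = c)
    (h2 : ∀ c, B 0 c = c) (h3 : ∀ r, A r 0 = r) (h4 : ∀ r, B r 0 = p r) : ∀ m ∈ base p, Sol A B m := by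
  intro m hm
  simp only [base, List.mem_append, List.mem_map, List.mem_finRange, true_and] at hm
  rcases hm with ⟨c, rfl⟩ | ⟨r, rfl⟩
  · exact ⟨0, c, by rw [h1, h2]; rfl⟩
  · exact ⟨r, 0, by rw [h3, h4]; rfl⟩

def conj : List (List (Fin 6) × List (Fin 6)) := [([0, 1, 2, 3, 4, 5], [0, 1, 2, 3, 4, 5]), ([0, 1, 2, 3, 5, 4], [0, 1, 2, 3, 5, 4]), ([0, 4, 5, 1, 2, 3], [0, 3, 4, 5, 1, 2]), ([0, 1, 5, 4, 3, 2], [0, 1, 5, 4, 3, 2]), ([0, 1, 4, 5, 3, 2], [0, 1, 5, 4, 2, 3]), ([0, 1, 3, 5, 4, 2], [0, 1, 5, 2, 4, 3]), ([0, 3, 5, 1, 2, 4], [0, 3, 4, 1, 5, 2]), ([0, 1, 5, 3, 4, 2], [0, 1, 5, 3, 4, 2]), ([0, 1, 3, 4, 5, 2], [0, 1, 5, 2, 3, 4]), ([0, 1, 4, 3, 5, 2], [0, 1, 5, 3, 2, 4]), ([0, 3, 4, 1, 2, 5], [0, 3, 4, 1, 2, 5]), ([0, 4, 5, 1, 3, 2], [0, 3, 5, 4, 1, 2]), ([0, 1, 2, 5, 4, 3], [0, 1, 2, 5, 4, 3]), ([0, 1, 2, 4, 5, 3], [0, 1, 2, 5, 3, 4]), ([0, 1, 5, 4, 2, 3], [0, 1, 4, 5, 3, 2]), ([0, 1, 4, 2, 5, 3], [0, 1, 3, 5, 2, 4]), ([0, 2, 4,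 1, 3, 5], [0, 3, 1, 4, 2, 5]), ([0, 1, 4, 5, 2, 3], [0, 1, 4, 5, 2, 3]), ([0, 2, 5, 1, 3, 4], [0, 3, 1, 4, 5, 2]), ([0, 1, 5, 2, 4, 3], [0, 1, 3, 5, 4, 2]), ([0, 3, 5, 1, 4, 2], [0, 3, 5, 1, 4, 2]), ([0, 1, 3, 2, 5, 4], [0, 1, 3, 2, 5, 4]), ([0, 2, 3, 1, 4, 5], [0, 3, 1, 2, 4, 5]), ([0, 1, 5, 3, 2, 4], [0, 1, 4, 3, 5, 2]), ([0, 2, 5, 1, 4, 3], [0, 3, 1, 5, 4, 2]), ([0, 1, 5, 2, 3, 4], [0, 1, 3, 4, 5, 2]), ([0, 3, 4, 1, 5, 2], [0, 3, 5, 1, 2, 4]), ([0, 2, 3, 1, 5, 4], [0, 3, 1, 2, 5, 4]), ([0, 2, 4, 1, 5, 3], [0, 3, 1, 5, 2, 4])]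

set_option synthInstance.maxSize 4096 in
theorem conj_spec : ∀ a b c d e : Fin 6, a ≠ 1 ∧ b ≠ 2 ∧ c ≠ 3 ∧ d ≠ 4 ∧ e ≠ 5 →
    [0, a, b, c, d, e].Nodup → ∃ q ∈ conj, q.1.getD 0 0 = 0 ∧
      (∀ x : Fin 6, q.2.getD (q.1.getD x 0) 0 = x) ∧
      ((∀ r : Fin 6, q.2.getD ([0, a, b, c, d, e].getD (q.1.getD r 0) 0) 0 = piA r) ∨
       (∀ r : Fin 6, q.2.getD ([0, a, b, c, d, e].getD (q.1.getD r 0) 0) 0 = piB r)) := by
  decide +kernel

theorem no_ols (A B : Fin 6 → Fin 6 → Fin 6) : ¬ OLS A B := by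
  intro h0
  obtain ⟨α, hα1, hα2⟩ := bijective_iff_has_inverse.mp (Finite.injective_iff_bijective.mp (h0.a1 0))
  obtain ⟨β, hβ1, hβ2⟩ := bijective_iff_has_inverse.mp (Finite.injective_iff_bijective.mp (h0.b1 0))
  have hi : Injective (fun r => α (A r 0)) := hα2.injective.comp (h0.a2 0)
  obtain ⟨ρ, hρ1, hρ2⟩ := bijective_iff_has_inverse.mp (Finite.injective_iff_bijective.mp hi)
  have hρ0 : ρ 0 = 0 := by
    have := hρ1 0
    simp only [hα1 0] at this
    exact this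
  have h := h0.comp hρ2.injective injective_id hα2.injective hβ2.injective
  simp only [id] at h
  generalize hA : (fun r c => α (A (ρ r) c)) = A1 at h
  generalize hB : (fun r c => β (B (ρ r) c)) = B1 at h
  have h1 : ∀ c, A1 0 c = c := fun c => by rw [← hA]; simp only [hρ0]; exact hα1 c
  have h2 : ∀ c, B1 0 c = c := fun c => by rw [← hB]; simp only [hρ0]; exact hβ1 c
  have h3 : ∀ r, A1 r 0 = r := fun r => by rw [← hA]; exact hρ2 r
  have h4 : ∀ r, r ≠ 0 → B1 r 0 ≠ r := fun r hr e => by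
    have := @h.ab (r, 0) (0, r) (by simp only [h1, h2, h3, e])
    exact hr (congrArg Prod.fst this)
  have h5 : ∀ r : Fin 6, [0, B1 1 0, B1 2 0, B1 3 0, B1 4 0, B1 5 0].getD r 0 = B1 r 0 := by
    intro r
    fin_cases r
    · exact (h2 0).symm
    all_goals rfl
  have h6 : [0, B1 1 0, B1 2 0, B1 3 0, B1 4 0, B1 5 0].Nodup := by
    have : [0, B1 1 0, B1 2 0, B1 3 0, B1 4 0, B1 5 0] = ([0, 1, 2, 3, 4, 5] : List (Fin 6)).map
        (fun r => B1 r 0) := by simp [h2]
    rw [this]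
    exact List.Nodup.map (h.b2 0) (by decide)
  obtain ⟨q, -, q0, q1, q2⟩ := conj_spec _ _ _ _ _ ⟨h4 1 (by decide), h4 2 (by decide), h4 3 (by decide),
    h4 4 (by decide), h4 5 (by decide)⟩ h6
  simp only [h5] at q2
  generalize hs : (fun x : Fin 6 => q.1.getD x 0) = s
  generalize ht : (fun x : Fin 6 => q.2.getD x 0) = t
  have s0 : s 0 = 0 := by rw [← hs]; exact q0
  have ts : LeftInverse t s := fun x => by rw [← hs, ← ht]; exact q1 x
  have q3 : (∀ r, t (B1 (s r) 0) = piA r) ∨ (∀ r, t (B1 (s r) 0) = piB r) := by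
    rw [← hs, ← ht]; exact q2
  have ti : Injective t := Finite.injective_iff_surjective.mpr ts.surjective
  have h' := h.comp ts.injective ts.injective ti ti
  have g1 : ∀ c, t (A1 (s 0) (s c)) = c := fun c => by rw [s0, h1, ts]
  have g2 : ∀ c, t (B1 (s 0) (s c)) = c := fun c => by rw [s0, h2, ts]
  have g3 : ∀ r, t (A1 (s r) (s 0)) = r := fun c => by rw [s0, h3, ts]
  rcases q3 with q3 | q3
  · exact h'.norm uA cA goA chkA (base piA) (base_sol g1 g2 g3 (fun r => by rw [s0]; exact q3 r))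
      (by decide +kernel)
  · exact h'.norm uB cB goB chkB (base piB) (base_sol g1 g2 g3 (fun r => by rw [s0]; exact q3 r))
      (by decide +kernel)

def tab (n : ℕ) (a b c : Fin 6) (i : Fin 3) : Fin 6 :=
  ⟨(n >>> (3 * (3 * (a.1 * 36 + b.1 * 6 + c.1) + i.1))) % 8 % 6, Nat.mod_lt _ (by norm_num)⟩

def nphi : ℕ := 455134938492238182329536044242220648129065231829888882449644463129798511032445104277647375791505120417357390466324114063615076232180432323020861543986464411857947175791946585951027609826954214630846960376000172737621645501316445689922308810853727766456538409886458405320869967183904771562225910314489502187043926633501318461738468662333685355259331978871580249947474665497585424445011599476645516435370121621641940113021100595266102361134205287328828383727524109970611182065093135549369011024021630773480356863218818524107492580268896844067598396859490903796224966546601364600487219931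

def npsi : ℕ := 454411634059432352920455388333738977655598693237816670188386980695334892770669508696636608028303978792394904675018013914286814228497050973169198937613158636978020880479268506800827634807478753466769182439080354373011833387142634587173994865786892353094254764579010025969036930225051596013471865721339747283486855039523111320071308501981190557856375427985115688749302609746970472135706000066678553226567845030203073010765289761313568755512236348446721100963366149177100625367665606579992919839676724340215988150335639270480559168353133419677994794816455526189740442754349762675349923035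

def phi (x : Fin 3 → Fin 6) : Fin 3 → Fin 6 := tab nphi (x 0) (x 1) (x 2)

def psi (x : Fin 3 → Fin 6) : Fin 3 → Fin 6 := tab npsi (x 0) (x 1) (x 2)

theorem psi_phi' : ∀ a b c : Fin 6, ∀ i : Fin 3,
    tab npsi (tab nphi a b c 0) (tab nphi a b c 1) (tab nphi a b c 2) i = ![a, b, c] i := by
  decide +kernel

theorem psi_phi : LeftInverse psi phi := fun x => by
  funext i
  have := psi_phi' (x 0) (x 1) (x 2) i
  rw [show psi (phi x) i = _ from this]
  fin_cases i <;> rfl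

theorem latin : ∀ a b x y : Fin 6, ∀ i : Fin 3, (tab npsi x a b i = tab npsi y a b i → x = y) ∧
    (tab npsi a x b i = tab npsi a y b i → x = y) ∧ (tab npsi a b x i = tab npsi a b y i → x = y) := by
  decide +kernel

theorem phi_inj (i j : Fin 3) (x y : Fin 3 → Fin 6) (h1 : x i = y i)
    (h2 : ∀ k, k ≠ j → phi x k = phi y k) : x = y := by
  apply psi_phi.injective
  rw [← psi_phi x, ← psi_phi y] at h1
  generalize phi x = p at *
  generalize phi y = q at *
  unfold psi at h1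
  funext k
  by_cases hk : k = j
  swap
  · exact h2 k hk
  subst hk
  fin_cases k
  · rw [h2 1 (by decide), h2 2 (by decide)] at h1
    exact (latin _ _ _ _ i).1 h1
  · rw [h2 0 (by decide), h2 2 (by decide)] at h1
    exact (latin _ _ _ _ i).2.1 h1
  · rw [h2 0 (by decide), h2 1 (by decide)] at h1
    exact (latin _ _ _ _ i).2.2 h1

end Pool.Agent.H.MP_2d9e0f_co
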